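import Pool.Agent.TH612.GS.Stm3
import Pool.Agent.TH805.GS.SW

set_option autoImplicit false

/-! # Project GF, part SW3: the terms with at least one swap are small on average over `β` -/

namespace Pool.Agent.TH521.GF

open Complex Filter Topology MeasureTheory Set
open Pool.Agent.TH612.CF Pool.Agent.TH612.GS
open Pool.Agent.TH805.GS
open scoped ComplexConjugate

noncomputable section

lemma conj_chi (s : ℂ) : conj (chi s) = chi (conj s) := by
  unfold chi
  rw [map_div₀, map_mul, ← Gamma_conj, ← Gamma_conj]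
  have h1 : conj ((Real.pi : ℂ) ^ (s - 1 / 2)) = (Real.pi : ℂ) ^ (conj s - 1 / 2) := by
    have h := cpow_conj (Real.pi : ℂ) (s - 1 / 2) (by
      rw [arg_ofReal_of_nonneg Real.pi_pos.le]
      exact Real.pi_pos.ne)
    rw [conj_ofReal] at h
    rw [← h]
    simp only [map_sub, map_div₀, map_one, map_ofNat]
  rw [h1]
  simp only [map_sub, map_div₀, map_one, map_ofNat]

variable {k : ℕ}

/-- the other factors -/
def RL (i₀ : Fin k) (t : ℝ) (γ : Fin k ⊕ Fin k → ℝ) (π : Equiv.Perm (Fin k ⊕ Fin k)) : ℂ :=
  (∏ j ∈ Finset.univ.erase i₀, if (π (Sum.inl j)).isRight then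
    chi (1 / 2 - I * t - I * (γ (π (Sum.inl j)) : ℂ)) else 1) *
  ∏ j : Fin k, if (π (Sum.inr j)).isLeft then
    chi (1 / 2 + I * t + I * (γ (π (Sum.inr j)) : ℂ)) else 1

lemma GG_splitL (i₀ : Fin k) (t : ℝ) (γ : Fin k ⊕ Fin k → ℝ) (π : Equiv.Perm (Fin k ⊕ Fin k))
    (h : (π (Sum.inl i₀)).isRight = true) :
    GG t (fun i => (γ i : ℂ)) π =
      conj (chi (1 / 2 + I * (t + γ (π (Sum.inl i₀)))) * conj (RL i₀ t γ π)) := by
  unfold GG RL
  rw [← Finset.mul_prod_erase Finset.univ (fun j : Fin k => if (π (Sum.inl j)).isRight then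
    chi (1 / 2 - I * t - I * (γ (π (Sum.inl j)) : ℂ)) else 1) (Finset.mem_univ i₀), if_pos h]
  rw [map_mul, conj_conj, conj_chi]
  have e : (conj (1 / 2 + I * ((t : ℂ) + (γ (π (Sum.inl i₀)) : ℂ))))
      = 1 / 2 - I * t - I * (γ (π (Sum.inl i₀)) : ℂ) := by
    simp only [map_div₀, map_add, map_mul, conj_I, conj_ofReal, map_one, map_ofNat]
    ring
  rw [e]
  ring

lemma RL_update (i₀ : Fin k) (t y : ℝ) (γ : Fin k ⊕ Fin k → ℝ)
    (π : Equiv.Perm (Fin k ⊕ Fin k)) :
    RL i₀ t (Function.update γ (π (Sum.inl i₀)) y) π = RL i₀ t γ π := by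
  unfold RL
  congr 1
  · refine Finset.prod_congr rfl fun j hj => ?_
    have h : π (Sum.inl j) ≠ π (Sum.inl i₀) := fun h => by
      have := π.injective h
      simp only [Sum.inl.injEq] at this
      exact (Finset.ne_of_mem_erase hj) this
    rw [Function.update_of_ne h]
  · refine Finset.prod_congr rfl fun j _ => ?_
    have h : π (Sum.inr j) ≠ π (Sum.inl i₀) := fun h => by
      have := π.injective h
      simp at this
    rw [Function.update_of_ne h]

lemma norm_RL (i₀ : Fin k) (t : ℝ) (γ : Fin k ⊕ Fin k → ℝ) (π : Equiv.Perm (Fin k ⊕ Fin k)) :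
    ‖RL i₀ t γ π‖ ≤ 1 := by
  unfold RL
  rw [norm_mul, norm_prod, norm_prod]
  have h1 : (∏ j ∈ Finset.univ.erase i₀, ‖(if (π (Sum.inl j)).isRight then
      chi (1 / 2 - I * t - I * (γ (π (Sum.inl j)) : ℂ)) else 1)‖) = 1 := by
    refine Finset.prod_eq_one fun j _ => ?_
    split_ifs
    · exact norm_chi' _ _
    · exact norm_one
  have h2 : (∏ j : Fin k, ‖(if (π (Sum.inr j)).isLeft then
      chi (1 / 2 + I * t + I * (γ (π (Sum.inr j)) : ℂ)) else 1)‖) = 1 := by
    refine Finset.prod_eq_one fun j _ => ?_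
    split_ifs
    · exact norm_chi'' _ _
    · exact norm_one
  rw [h1, h2, one_mul]

lemma cont_RL (i₀ : Fin k) (γ : Fin k ⊕ Fin k → ℝ) (π : Equiv.Perm (Fin k ⊕ Fin k)) :
    Continuous fun t : ℝ => RL i₀ t γ π := by
  unfold RL
  refine Continuous.mul (continuous_finsetProd _ fun j _ => ?_)
    (continuous_finsetProd _ fun j _ => ?_)
  · split_ifs
    · have h := cont_chi.comp (g := fun u : ℝ => chi (1 / 2 + I * (u : ℂ)))
        (f := fun t : ℝ => -t - γ (π (Sum.inl j))) (by fun_prop)
      refine h.congr fun t => ?_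
      simp only [Function.comp]
      congr 1
      push_cast
      ring
    · exact continuous_const
  · split_ifs
    · have h := cont_chi.comp (g := fun u : ℝ => chi (1 / 2 + I * (u : ℂ)))
        (f := fun t : ℝ => t + γ (π (Sum.inr j))) (by fun_prop)
      refine h.congr fun t => ?_
      simp only [Function.comp]
      congr 1
      push_cast
      ring
    · exact continuous_const

/-- a swap to the left comes with a swap to the right -/
lemma exists_right (π : Equiv.Perm (Fin k ⊕ Fin k)) (j₀ : Fin k)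
    (hj₀ : (π (Sum.inr j₀)).isLeft = true) : ∃ i₀ l : Fin k, π (Sum.inl i₀) = Sum.inr l := by
  by_contra hcon
  push Not at hcon
  have h1 : ∀ i : Fin k, ∃ m : Fin k, π (Sum.inl i) = Sum.inl m := by
    intro i
    rcases h : π (Sum.inl i) with m | m
    · exact ⟨m, rfl⟩
    · exact absurd h (hcon i m)
  choose f hf using h1
  have hinj : Function.Injective f := by
    intro a b hab
    have : π (Sum.inl a) = π (Sum.inl b) := by rw [hf, hf, hab]
    simpa using π.injective this
  have hsurj := Finite.surjective_of_injective hinj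
  obtain ⟨m, hm⟩ : ∃ m, π (Sum.inr j₀) = Sum.inl m := by
    rcases h : π (Sum.inr j₀) with m | m
    · exact ⟨m, rfl⟩
    · rw [h] at hj₀
      simp at hj₀
  obtain ⟨i, hi⟩ := hsurj m
  have : π (Sum.inl i) = π (Sum.inr j₀) := by rw [hf, hi, hm]
  simpa using π.injective this

lemma gab_update (α β : Fin k → ℝ) (l : Fin k) (y : ℝ) :
    gab α (Function.update β l y) = Function.update (gab α β) (Sum.inr l) y := by
  unfold gab
  exact (Sum.update_elim_inr).symm

lemma cont_gab (α : Fin k → ℝ) : Continuous fun β : Fin k → ℝ => gab α β := by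
  refine continuous_pi fun i => ?_
  cases i with
  | inl j => exact continuous_const
  | inr j => exact continuous_apply j

theorem t_SW3 (hCHI : S_CHI) : S_SW3 := by
  intro k α
  obtain ⟨C, T₀, hC, hT₀, hchi⟩ := hCHI
  refine ⟨C, T₀, hC, hT₀, ?_⟩
  rintro T S π hT hS hST ⟨j₀, hj₀⟩
  have hT0 : 0 < T := by linarith
  obtain ⟨i₀, p, hp⟩ := exists_right π j₀ hj₀
  have hpr : (π (Sum.inl i₀)).isRight = true := by rw [hp]; rfl
  set F : (Fin k → ℝ) → ENNReal :=
    fun β => ENNReal.ofReal (‖∫ t in (0:ℝ)..S, GG t (fun i => (gab α β i : ℂ)) π‖ ^ 2) with hF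
  have hFm : Measurable F := by
    have : Continuous F := ENNReal.continuous_ofReal.comp
      ((((cont_int π S).comp (cont_gab α)).norm).pow 2)
    exact this.measurable
  have hin : ∀ β : Fin k → ℝ,
      ∫⁻ y, F (Function.update β p y) ∂(volume.restrict (Icc 0 T)) ≤
        ENNReal.ofReal (C * T ^ 2 * Real.log T ^ 2) := by
    intro β
    have hcR : Continuous fun t : ℝ => conj (RL i₀ t (gab α β) π) :=
      continuous_conj.comp (cont_RL i₀ (gab α β) π)
    have h1 := hchi T S (fun t => conj (RL i₀ t (gab α β) π)) hT hS hST hcR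
      (fun t => by rw [RCLike.norm_conj]; exact norm_RL i₀ t (gab α β) π)
    have hc : Continuous fun y : ℝ =>
        ‖∫ t in (0:ℝ)..S, chi (1 / 2 + I * (t + y)) * conj (RL i₀ t (gab α β) π)‖ ^ 2 := by
      refine Continuous.pow (Continuous.norm ?_) 2
      refine intervalIntegral.continuous_parametric_intervalIntegral_of_continuous'
        (f := fun (y t : ℝ) => chi (1 / 2 + I * ((t : ℂ) + (y : ℂ))) *
          conj (RL i₀ t (gab α β) π)) ?_ 0 S
      have h2 : Continuous fun q : ℝ × ℝ => chi (1 / 2 + I * ((q.2 : ℂ) + (q.1 : ℂ))) := by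
        have h := cont_chi.comp (g := fun u : ℝ => chi (1 / 2 + I * (u : ℂ)))
          (f := fun q : ℝ × ℝ => q.2 + q.1) (by fun_prop)
        refine h.congr fun t => ?_
        simp only [Function.comp]
        congr 1
        push_cast
        ring
      exact h2.mul (hcR.comp continuous_snd)
    have h3 : ∀ y : ℝ, F (Function.update β p y) =
        ENNReal.ofReal (‖∫ t in (0:ℝ)..S, chi (1 / 2 + I * (t + y)) *
          conj (RL i₀ t (gab α β) π)‖ ^ 2) := by
      intro y
      simp only [hF]
      have e : (∫ t in (0:ℝ)..S, GG t (fun i => (gab α (Function.update β p y) i : ℂ)) π) =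
          conj (∫ t in (0:ℝ)..S, chi (1 / 2 + I * (t + y)) * conj (RL i₀ t (gab α β) π)) := by
        rw [intervalIntegral.integral_of_le hS, intervalIntegral.integral_of_le hS,
          ← integral_conj]
        refine integral_congr_ae (Eventually.of_forall fun t => ?_)
        simp only
        rw [GG_splitL i₀ t (gab α (Function.update β p y)) π hpr, gab_update, hp]
        have := RL_update i₀ t y (gab α β) π
        rw [hp] at this
        rw [this, Function.update_self]
      rw [e, RCLike.norm_conj]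
    simp only [h3]
    rw [← ofReal_integral_eq_lintegral_ofReal]
    · refine ENNReal.ofReal_le_ofReal ?_
      rw [integral_Icc_eq_integral_Ioc, ← intervalIntegral.integral_of_le hT0.le]
      exact h1
    · exact hc.continuousOn.integrableOn_compact isCompact_Icc
    · exact Eventually.of_forall fun y => by positivity
  change ∫⁻ β, F β ∂(Measure.pi fun _ => volume.restrict (Icc 0 T)) ≤ _
  rw [lintegral_eq_lmarginal_univ (fun _ => (0 : ℝ)), lmarginal_erase' F hFm (Finset.mem_univ p)]
  refine (lmarginal_mono (g := fun _ => ENNReal.ofReal (C * T ^ 2 * Real.log T ^ 2))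
    (fun γ => hin γ) _).trans ?_
  unfold lmarginal
  rw [lintegral_const, Measure.pi_univ]
  have hm : (∏ i : {x // x ∈ Finset.univ.erase p}, (volume.restrict (Icc 0 T) : Measure ℝ) univ)
      = ENNReal.ofReal T ^ (k - 1) := by
    rw [Measure.restrict_apply_univ, Real.volume_Icc, sub_zero, Finset.prod_const]
    congr 1
    rw [Finset.card_univ, Fintype.card_coe, Finset.card_erase_of_mem (Finset.mem_univ _),
      Finset.card_univ, Fintype.card_fin]
  rw [hm, ← ENNReal.ofReal_pow hT0.le, ← ENNReal.ofReal_mul (by positivity)]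
  refine ENNReal.ofReal_le_ofReal (le_of_eq ?_)
  have hk : 1 ≤ k := by
    have := j₀.pos
    omega
  have e : k + 1 = 2 + (k - 1) := by omega
  rw [e, pow_add]
  ring

end

end Pool.Agent.TH521.GF
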